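import Mathlib

set_option autoImplicit false

/-!
Job ZC-SF, part 1: integers `A n` such that the numbers `A n`, `A n - 1` are independent modulo squares.
-/

namespace Pool.Agent.Q237.ZC

open Finset

theorem exists_step (N : ℕ) (hN : 0 < N) : ∃ A q q' : ℕ, 2 ≤ A ∧ q.Prime ∧ q'.Prime ∧ ¬ q ∣ N ∧ ¬ q' ∣ N ∧
    q ∣ A ∧ ¬ q ^ 2 ∣ A ∧ q' ∣ A - 1 ∧ ¬ q' ^ 2 ∣ A - 1 := by
  obtain ⟨q, hqN, hq⟩ := Nat.exists_infinite_primes (N + 1)
  obtain ⟨q', hq'q, hq'⟩ := Nat.exists_infinite_primes (q + 1)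
  have hne : q ≠ q' := by omega
  have hco : (q ^ 2).Coprime (q' ^ 2) := Nat.Coprime.pow 2 2 ((Nat.coprime_primes hq hq').2 hne)
  obtain ⟨x, hx1, hx2⟩ := Nat.chineseRemainder hco q (1 + q')
  have hq2 := hq.two_le
  have hq'2 := hq'.two_le
  have h1 : q ∣ x := by
    have h3 : x ≡ q [MOD q] := hx1.of_dvd (dvd_pow_self q two_ne_zero)
    have h4 : x ≡ 0 [MOD q] := h3.trans (by
      rw [Nat.modEq_zero_iff_dvd])
    exact (Nat.modEq_zero_iff_dvd).1 h4
  have h2 : ¬ q ^ 2 ∣ x := by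
    intro h3
    have h4 : x ≡ 0 [MOD q ^ 2] := (Nat.modEq_zero_iff_dvd).2 h3
    have h5 : q ≡ 0 [MOD q ^ 2] := hx1.symm.trans h4
    have h6 := (Nat.modEq_zero_iff_dvd).1 h5
    have h7 := Nat.le_of_dvd (by omega) h6
    nlinarith
  have hx0 : x ≠ 0 := by
    intro h3
    exact h2 (h3 ▸ dvd_zero _)
  have hxq : q ≤ x := Nat.le_of_dvd (Nat.pos_of_ne_zero hx0) h1
  refine ⟨x, q, q', by omega, hq, hq', ?_, ?_, h1, h2, ?_, ?_⟩
  · intro h
    have := Nat.le_of_dvd hN h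
    omega
  · intro h
    have := Nat.le_of_dvd hN h
    omega
  · have h3 : x ≡ 1 + q' [MOD q'] := hx2.of_dvd (dvd_pow_self q' two_ne_zero)
    have h4 : 1 ≡ x [MOD q'] := by
      refine (h3.trans ?_).symm
      have : 1 + q' ≡ 1 + 0 [MOD q'] := Nat.ModEq.add_left 1 ((Nat.modEq_zero_iff_dvd).2 dvd_rfl)
      simpa using this
    exact (Nat.modEq_iff_dvd' (by omega)).1 h4
  · intro h
    have h3 : 1 ≡ x [MOD q' ^ 2] := (Nat.modEq_iff_dvd' (by omega)).2 h
    have h4 : 1 ≡ 1 + q' [MOD q' ^ 2] := h3.trans hx2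
    have h5 := (Nat.modEq_iff_dvd' (by omega)).1 h4
    have h6 : 1 + q' - 1 = q' := by omega
    rw [h6] at h5
    have h7 := Nat.le_of_dvd (by omega) h5
    nlinarith

/-- the next integer -/
noncomputable def nx (N : ℕ) : ℕ := if hN : 0 < N then (exists_step N hN).choose else 2

theorem nx_spec {N : ℕ} (hN : 0 < N) : ∃ q q' : ℕ, 2 ≤ nx N ∧ q.Prime ∧ q'.Prime ∧ ¬ q ∣ N ∧ ¬ q' ∣ N ∧
    q ∣ nx N ∧ ¬ q ^ 2 ∣ nx N ∧ q' ∣ nx N - 1 ∧ ¬ q' ^ 2 ∣ nx N - 1 := by
  unfold nx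
  rw [dif_pos hN]
  exact (exists_step N hN).choose_spec

theorem two_le_nx (N : ℕ) : 2 ≤ nx N := by
  by_cases hN : 0 < N
  · obtain ⟨_, _, h, _⟩ := nx_spec hN
    exact h
  · unfold nx
    rw [dif_neg hN]

/-- the products -/
noncomputable def NN : ℕ → ℕ
  | 0 => 1
  | n + 1 => NN n * (nx (NN n) * (nx (NN n) - 1))

theorem NN_pos (n : ℕ) : 0 < NN n := by
  induction n with
  | zero => exact one_pos
  | succ n ih =>
    have := two_le_nx (NN n)
    have h1 : 0 < nx (NN n) := by omega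
    have h2 : 0 < nx (NN n) - 1 := by omega
    exact Nat.mul_pos ih (Nat.mul_pos h1 h2)

/-- the integers -/
noncomputable def As (n : ℕ) : ℕ := nx (NN n)

theorem two_le_As (n : ℕ) : 2 ≤ As n := two_le_nx _

theorem NN_dvd {m n : ℕ} (h : m ≤ n) : NN m ∣ NN n := by
  induction n, h using Nat.le_induction with
  | base => exact dvd_rfl
  | succ n _ ih => exact ih.trans (Dvd.intro _ rfl)

theorem As_dvd {m n : ℕ} (h : m < n) : As m ∣ NN n ∧ As m - 1 ∣ NN n := by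
  have h1 : NN (m + 1) ∣ NN n := NN_dvd h
  have h2 : NN (m + 1) = NN m * (As m * (As m - 1)) := rfl
  rw [h2] at h1
  constructor
  · exact ((Dvd.intro _ rfl : As m ∣ As m * (As m - 1)).trans (Dvd.intro_left _ rfl)).trans h1
  · exact ((Dvd.intro_left _ rfl : As m - 1 ∣ As m * (As m - 1)).trans (Dvd.intro_left _ rfl)).trans h1

theorem not_sq {q B R : ℕ} (hq : q.Prime) (h1 : q ∣ B) (h2 : ¬ q ^ 2 ∣ B) (h3 : ¬ q ∣ R) : ¬ IsSquare (B * R) := by
  rintro ⟨m, hm⟩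
  have h4 : q ∣ m * m := by
    rw [← hm]
    exact h1.mul_right R
  have h5 : q ∣ m := by
    rcases (Nat.Prime.dvd_mul hq).1 h4 with h | h <;> exact h
  have h6 : q ^ 2 ∣ B * R := by
    rw [hm, sq]
    exact mul_dvd_mul h5 h5
  apply h2
  exact (Nat.Coprime.pow_left 2 ((Nat.Prime.coprime_iff_not_dvd hq).2 h3)).dvd_of_dvd_mul_right h6

/-- **independence modulo squares** -/
theorem indep (X Y : Finset ℕ) (h : X.Nonempty ∨ Y.Nonempty) :
    ¬ IsSquare ((∏ i ∈ X, As i) * ∏ i ∈ Y, (As i - 1)) := by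
  classical
  have hne : (X ∪ Y).Nonempty := by
    rcases h with h | h
    · exact h.mono subset_union_left
    · exact h.mono subset_union_right
  set n := (X ∪ Y).max' hne with hn
  have hmem : n ∈ X ∪ Y := Finset.max'_mem _ _
  have hle : ∀ i ∈ X ∪ Y, i ≤ n := fun i hi => Finset.le_max' _ i hi
  obtain ⟨q, q', hA2, hq, hq', hqN, hq'N, h1, h2, h3, h4⟩ := nx_spec (NN_pos n)
  have hlt : ∀ p : ℕ, ¬ p ∣ NN n → ∀ i < n, ¬ p ∣ As i ∧ ¬ p ∣ As i - 1 := by
    intro p hp i hi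
    obtain ⟨k1, k2⟩ := As_dvd hi
    exact ⟨fun h => hp (h.trans k1), fun h => hp (h.trans k2)⟩
  by_cases hY : n ∈ Y
  · rw [← Finset.mul_prod_erase Y _ hY, mul_left_comm]
    refine not_sq hq' h3 h4 ?_
    rw [Nat.Prime.dvd_mul hq']
    rintro (h5 | h5)
    · obtain ⟨i, hi, h6⟩ := (Prime.dvd_finset_prod_iff hq'.prime _).1 h5
      rcases lt_or_eq_of_le (hle i (mem_union_left _ hi)) with h7 | h7
      · exact (hlt q' hq'N i h7).1 h6
      · rw [h7] at h6
        have h8 : As n - (As n - 1) = 1 := by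
          have := two_le_As n
          omega
        have h9 : q' ∣ As n - (As n - 1) := Nat.dvd_sub h6 h3
        rw [h8] at h9
        exact hq'.one_lt.ne' (Nat.dvd_one.1 h9)
    · obtain ⟨i, hi, h6⟩ := (Prime.dvd_finset_prod_iff hq'.prime _).1 h5
      rw [Finset.mem_erase] at hi
      have h7 : i < n := lt_of_le_of_ne (hle i (mem_union_right _ hi.2)) hi.1
      exact (hlt q' hq'N i h7).2 h6
  · have hX : n ∈ X := by
      rcases Finset.mem_union.1 hmem with h | h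
      · exact h
      · exact absurd h hY
    rw [← Finset.mul_prod_erase X _ hX, mul_assoc]
    refine not_sq hq h1 h2 ?_
    rw [Nat.Prime.dvd_mul hq]
    rintro (h5 | h5)
    · obtain ⟨i, hi, h6⟩ := (Prime.dvd_finset_prod_iff hq.prime _).1 h5
      rw [Finset.mem_erase] at hi
      have h7 : i < n := lt_of_le_of_ne (hle i (mem_union_left _ hi.2)) hi.1
      exact (hlt q hqN i h7).1 h6
    · obtain ⟨i, hi, h6⟩ := (Prime.dvd_finset_prod_iff hq.prime _).1 h5
      have h7 : i < n := by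
        refine lt_of_le_of_ne (hle i (mem_union_right _ hi)) ?_
        rintro rfl
        exact hY hi
      exact (hlt q hqN i h7).2 h6

end Pool.Agent.Q237.ZC
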