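import Mathlib
import Pool.Agent.Q271.ZC.Def
import Pool.Agent.Q237.ZC.Num

set_option autoImplicit false

/-!
Job ZC-SF, part 2: the Galois group of `ℚ(√A_i, √(A_i - 1), √(-∏ (A_i + √A_i)), t)`, abstractly.
-/

namespace Pool.Agent.Q237.ZC

open Finset Pool.Agent.Q271.ZC

section sign

variable {L : Type} [Field L] [CharZero L]

/-- the sign -/
def sgn (x : ZMod 2) : L := if x = 0 then 1 else -1

theorem zmod2_cases (x : ZMod 2) : x = 0 ∨ x = 1 := by revert x; decide

theorem zmod3_cases (x : ZMod 3) : x = 0 ∨ x = 1 ∨ x = 2 := by revert x; decide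

omit [CharZero L] in
theorem sgn_zero : (sgn (0 : ZMod 2) : L) = 1 := by simp [sgn]

omit [CharZero L] in
theorem sgn_one : (sgn (1 : ZMod 2) : L) = -1 := by simp [sgn]

omit [CharZero L] in
theorem sgn_add (x y : ZMod 2) : (sgn (x + y) : L) = sgn x * sgn y := by
  have h11 : (1 : ZMod 2) + 1 = 0 := by decide
  rcases zmod2_cases x with rfl | rfl <;> rcases zmod2_cases y with rfl | rfl
  · rw [add_zero, sgn_zero, mul_one]
  · rw [zero_add, sgn_zero, one_mul]
  · rw [add_zero, sgn_zero, mul_one]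
  · rw [h11, sgn_one, sgn_zero]; ring

theorem sgn_inj {x y : ZMod 2} (h : (sgn x : L) = sgn y) : x = y := by
  have h1 : (1 : L) ≠ -1 := by
    intro h
    have : (2 : L) = 0 := by linear_combination h
    exact two_ne_zero this
  rcases zmod2_cases x with rfl | rfl <;> rcases zmod2_cases y with rfl | rfl
  · rfl
  · rw [sgn_zero, sgn_one] at h; exact absurd h h1
  · rw [sgn_zero, sgn_one] at h; exact absurd h.symm h1
  · rfl

omit [CharZero L] in
theorem sgn_sum {ι : Type} (s : Finset ι) (f : ι → ZMod 2) :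
    (sgn (∑ i ∈ s, f i) : L) = ∏ i ∈ s, sgn (f i) := by
  classical
  induction s using Finset.induction_on with
  | empty => simp [sgn_zero]
  | insert a s ha ih => rw [sum_insert ha, prod_insert ha, sgn_add, ih]

theorem map_sgn (σ : L ≃ₐ[ℚ] L) (x : ZMod 2) : σ (sgn x) = sgn x := by
  rcases zmod2_cases x with rfl | rfl
  · rw [sgn_zero, map_one]
  · rw [sgn_one, map_neg, map_one]

omit [CharZero L] in
theorem sgn_ne (x : ZMod 2) : (sgn x : L) ≠ 0 := by
  rcases zmod2_cases x with rfl | rfl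
  · rw [sgn_zero]; exact one_ne_zero
  · rw [sgn_one]; exact neg_ne_zero.2 one_ne_zero

omit [CharZero L] in
theorem exists_sgn {x y : L} (h : x ^ 2 = y ^ 2) : ∃ c : ZMod 2, x = sgn c * y := by
  rcases sq_eq_sq_iff_eq_or_eq_neg.1 h with h | h
  · exact ⟨0, by rw [sgn_zero, one_mul, h]⟩
  · exact ⟨1, by rw [sgn_one, h]; ring⟩

/-- the polynomials which permute the roots of the cubic polynomial -/
def P (c : ZMod 3) (x : L) : L := if c = 0 then x else if c = 1 then x ^ 2 - 2 else 2 - x - x ^ 2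

omit [CharZero L] in
theorem P_zero (x : L) : P 0 x = x := by simp [P]

omit [CharZero L] in
theorem P_one (x : L) : P 1 x = x ^ 2 - 2 := by
  have h : (1 : ZMod 3) ≠ 0 := by decide
  simp [P, h]

omit [CharZero L] in
theorem P_two (x : L) : P 2 x = 2 - x - x ^ 2 := by
  have h : (2 : ZMod 3) ≠ 0 := by decide
  have h' : (2 : ZMod 3) ≠ 1 := by decide
  simp [P, h, h']

omit [CharZero L] in
theorem P_P {t : L} (ht : t ^ 3 - 3 * t + 1 = 0) (c c' : ZMod 3) : P c (P c' t) = P (c + c') t := by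
  have h11 : (1 : ZMod 3) + 1 = 2 := by decide
  have h12 : (1 : ZMod 3) + 2 = 0 := by decide
  have h21 : (2 : ZMod 3) + 1 = 0 := by decide
  have h22 : (2 : ZMod 3) + 2 = 1 := by decide
  rcases zmod3_cases c with rfl | rfl | rfl <;> rcases zmod3_cases c' with rfl | rfl | rfl
  · rw [add_zero, P_zero]
  · rw [zero_add, P_zero]
  · rw [zero_add, P_zero]
  · rw [add_zero, P_zero]
  · rw [h11, P_one, P_one, P_two]; linear_combination t * ht
  · rw [h12, P_one, P_two, P_zero]; linear_combination (t + 2) * ht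
  · rw [add_zero, P_zero]
  · rw [h21, P_two, P_one, P_zero]; linear_combination (-t) * ht
  · rw [h22, P_two, P_two, P_one]; linear_combination (-(t + 2)) * ht

theorem P_inj {t : L} (ht : t ^ 3 - 3 * t + 1 = 0) {c c' : ZMod 3} (h : P c t = P c' t) : c = c' := by
  have h3 : (3 : L) ≠ 0 := by exact_mod_cast (three_ne_zero : (3 : ℕ) ≠ 0)
  have h01 : t ≠ t ^ 2 - 2 := by
    intro h
    apply h3
    linear_combination ht + (t + 1) * h
  have h02 : t ≠ 2 - t - t ^ 2 := by
    intro h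
    have h1 : 3 * (t - 1) = 0 := by linear_combination ht - (t - 2) * h
    have h2 : t - 1 = 0 := by
      rcases mul_eq_zero.1 h1 with h2 | h2
      · exact absurd h2 h3
      · exact h2
    have h4 : t = 1 := sub_eq_zero.1 h2
    rw [h4] at ht
    norm_num at ht
  have h12 : t ^ 2 - 2 ≠ 2 - t - t ^ 2 := by
    intro h
    have h1 : 3 * t = 0 := by linear_combination (-4) * ht + (2 * t - 1) * h
    have h2 : t = 0 := by
      rcases mul_eq_zero.1 h1 with h2 | h2
      · exact absurd h2 h3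
      · exact h2
    rw [h2] at ht
    norm_num at ht
  rcases zmod3_cases c with rfl | rfl | rfl <;> rcases zmod3_cases c' with rfl | rfl | rfl
  · rfl
  · rw [P_zero, P_one] at h; exact absurd h h01
  · rw [P_zero, P_two] at h; exact absurd h h02
  · rw [P_zero, P_one] at h; exact absurd h.symm h01
  · rfl
  · rw [P_one, P_two] at h; exact absurd h h12
  · rw [P_zero, P_two] at h; exact absurd h.symm h02
  · rw [P_one, P_two] at h; exact absurd h.symm h12
  · rfl

omit [CharZero L] in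
theorem exists_P {t x : L} (ht : t ^ 3 - 3 * t + 1 = 0) (hx : x ^ 3 - 3 * x + 1 = 0) :
    ∃ c : ZMod 3, x = P c t := by
  have h : (x - t) * ((x - (t ^ 2 - 2)) * (x - (2 - t - t ^ 2))) = 0 := by
    have : (x - t) * ((x - (t ^ 2 - 2)) * (x - (2 - t - t ^ 2))) = (x ^ 3 - 3 * x + 1) +
        (t ^ 3 - 3 * t + 1) * (t ^ 2 + t - 1 - x * (t + 1)) := by
      ring
    rw [this, ht, hx]
    ring
  rcases mul_eq_zero.1 h with h | h
  · exact ⟨0, by rw [P_zero]; exact sub_eq_zero.1 h⟩
  · rcases mul_eq_zero.1 h with h | h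
    · exact ⟨1, by rw [P_one]; exact sub_eq_zero.1 h⟩
    · exact ⟨2, by rw [P_two]; exact sub_eq_zero.1 h⟩

theorem map_P (σ : L ≃ₐ[ℚ] L) (c : ZMod 3) (x : L) : σ (P c x) = P c (σ x) := by
  rcases zmod3_cases c with rfl | rfl | rfl
  · rw [P_zero, P_zero]
  · rw [P_one, P_one, map_sub, map_pow, map_ofNat]
  · rw [P_two, P_two, map_sub, map_sub, map_pow, map_ofNat]

end sign

section characters

variable {k : ℕ}

/-- the character with given values -/
def bh (f : Fin k → ZMod 2) : (Fin k → ZMod 2) →+ ZMod 2 where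
  toFun a := ∑ i, f i * a i
  map_zero' := by simp
  map_add' x y := by simp [mul_add, sum_add_distrib]

theorem bh_single (f : Fin k → ZMod 2) (i : Fin k) : bh f (Pi.single i 1) = f i := by
  show ∑ j, f j * (Pi.single i 1 : Fin k → ZMod 2) j = f i
  rw [Finset.sum_eq_single i]
  · simp
  · intro j _ hj
    rw [Pi.single_eq_of_ne hj, mul_zero]
  · intro h; exact absurd (mem_univ i) h

theorem bh_eq (b : (Fin k → ZMod 2) →+ ZMod 2) (a : Fin k → ZMod 2) :
    b a = ∑ i, b (Pi.single i 1) * a i := by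
  have h : a = ∑ i, Pi.single i (a i) := (Finset.univ_sum_single a).symm
  conv_lhs => rw [h]
  rw [map_sum]
  refine Finset.sum_congr rfl fun i _ => ?_
  rcases zmod2_cases (a i) with h | h
  · rw [h, Pi.single_zero, map_zero, mul_zero]
  · rw [h, mul_one]

theorem b_ext {b b' : (Fin k → ZMod 2) →+ ZMod 2}
    (h : ∀ i, b (Pi.single i 1) = b' (Pi.single i 1)) : b = b' := by
  apply AddMonoidHom.ext
  intro a
  rw [bh_eq b, bh_eq b']
  exact Finset.sum_congr rfl fun i _ => by rw [h i]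

end characters

/-- the field generated by square roots and a root of a cubic polynomial -/
structure Dat (k : ℕ) (L : Type) [Field L] [CharZero L] where
  /-- the integers -/
  A : Fin k → ℕ
  hA : ∀ i, 2 ≤ A i
  /-- the square root of `A` -/
  r : Fin k → L
  /-- the square root of `A - 1` -/
  s : Fin k → L
  /-- the imaginary generator -/
  d : L
  /-- the cubic generator -/
  t : L
  hr : ∀ i, r i ^ 2 = A i
  hs : ∀ i, s i ^ 2 = A i - 1
  hd : d ^ 2 = - ∏ i, ((A i : L) + r i)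
  ht : t ^ 3 - 3 * t + 1 = 0

namespace Dat

variable {k : ℕ} {L : Type} [Field L] [CharZero L] (D : Dat k L)

theorem A_ne (i : Fin k) : (D.A i : L) ≠ 0 := by
  have := D.hA i
  exact_mod_cast (by omega : D.A i ≠ 0)

theorem A1_ne (i : Fin k) : (D.A i : L) - 1 ≠ 0 := by
  have := D.hA i
  rw [sub_ne_zero]
  exact_mod_cast (by omega : D.A i ≠ 1)

theorem r_ne (i : Fin k) : D.r i ≠ 0 := by
  intro h
  have := D.hr i
  rw [h] at this
  exact D.A_ne i (by rw [← this]; ring)

theorem s_ne (i : Fin k) : D.s i ≠ 0 := by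
  intro h
  have := D.hs i
  rw [h] at this
  exact D.A1_ne i (by rw [← this]; ring)

theorem mul_eq (i : Fin k) : ((D.A i : L) + D.r i) * ((D.A i : L) - D.r i) =
    (D.A i : L) * (D.A i - 1) := by
  have := D.hr i
  linear_combination -this

theorem add_ne (i : Fin k) : (D.A i : L) + D.r i ≠ 0 := by
  intro h
  have := D.mul_eq i
  rw [h, zero_mul] at this
  exact mul_ne_zero (D.A_ne i) (D.A1_ne i) this.symm

theorem sub_ne (i : Fin k) : (D.A i : L) - D.r i ≠ 0 := by
  intro h
  have := D.mul_eq i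
  rw [h, mul_zero] at this
  exact mul_ne_zero (D.A_ne i) (D.A1_ne i) this.symm

theorem d_ne : D.d ≠ 0 := by
  intro h
  have := D.hd
  rw [h, zero_pow two_ne_zero, eq_comm, neg_eq_zero] at this
  exact Finset.prod_ne_zero_iff.2 (fun i _ => D.add_ne i) this

/-- the factors -/
def u (i : Fin k) (x : ZMod 2) : L := if x = 0 then 1 else D.r i * D.s i / (D.A i + D.r i)

theorem u_zero (i : Fin k) : D.u i 0 = 1 := by simp [u]

theorem u_one (i : Fin k) : D.u i 1 = D.r i * D.s i / (D.A i + D.r i) := by simp [u]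

theorem u_ne (i : Fin k) (x : ZMod 2) : D.u i x ≠ 0 := by
  rcases zmod2_cases x with rfl | rfl
  · rw [u_zero]; exact one_ne_zero
  · rw [u_one]; exact div_ne_zero (mul_ne_zero (D.r_ne i) (D.s_ne i)) (D.add_ne i)

theorem u_sq (i : Fin k) (x : ZMod 2) :
    D.u i x ^ 2 * (D.A i + D.r i) = D.A i + sgn x * D.r i := by
  rcases zmod2_cases x with rfl | rfl
  · rw [u_zero, sgn_zero]; ring
  · rw [u_one, sgn_one, div_pow, mul_pow, D.hr, D.hs]
    have h1 := D.add_ne i
    have h2 := D.mul_eq i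
    field_simp
    linear_combination -h2

/-- the automorphism `σ` is represented by `g` -/
def Rep (σ : L ≃ₐ[ℚ] L) (g : EG (Fin k → ZMod 2) × Multiplicative (ZMod 3)) : Prop :=
  (∀ i, σ (D.r i) = sgn (g.1.a i) * D.r i) ∧
  (∀ i, σ (D.s i) = sgn (g.1.a i + g.1.b (Pi.single i 1)) * D.s i) ∧
  σ D.d = sgn g.1.e * D.d * ∏ i, D.u i (g.1.a i) ∧ σ D.t = P (Multiplicative.toAdd g.2) D.t

theorem rep_exists (σ : L ≃ₐ[ℚ] L) : ∃ g, D.Rep σ g := by
  have h1 : ∀ i, ∃ x : ZMod 2, σ (D.r i) = sgn x * D.r i := fun i =>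
    exists_sgn (by rw [← map_pow, D.hr i, map_natCast])
  have h2 : ∀ i, ∃ x : ZMod 2, σ (D.s i) = sgn x * D.s i := fun i =>
    exists_sgn (by rw [← map_pow, D.hs i, map_sub, map_natCast, map_one])
  choose α hα using h1
  choose β hβ using h2
  have h3 : ∃ x : ZMod 2, σ D.d = sgn x * (D.d * ∏ i, D.u i (α i)) := by
    apply exists_sgn
    rw [← map_pow, D.hd, map_neg, map_prod, mul_pow, D.hd, ← Finset.prod_pow, neg_mul,
      ← Finset.prod_mul_distrib]
    congr 1
    refine Finset.prod_congr rfl fun i _ => ?_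
    rw [map_add, map_natCast, hα i, mul_comm (_ + _) (_ ^ 2), D.u_sq i]
  obtain ⟨e, he⟩ := h3
  have h4 : ∃ c : ZMod 3, σ D.t = P c D.t := by
    apply exists_P D.ht
    have h5 := congrArg σ D.ht
    have h6 : σ 3 = 3 := map_ofNat σ 3
    rw [map_add, map_sub, map_mul, map_pow, map_one, map_zero, h6] at h5
    exact h5
  obtain ⟨c, hc⟩ := h4
  refine ⟨(⟨e, α, bh (fun i => α i + β i)⟩, Multiplicative.ofAdd c), hα, fun i => ?_, ?_, ?_⟩
  · rw [hβ i]
    congr 2
    show β i = α i + bh (fun i => α i + β i) (Pi.single i 1)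
    rw [bh_single, ← add_assoc, CharTwo.add_self_eq_zero, zero_add]
  · rw [he, mul_assoc]
  · exact hc

theorem rep_unique {σ : L ≃ₐ[ℚ] L} {g h : EG (Fin k → ZMod 2) × Multiplicative (ZMod 3)}
    (hg : D.Rep σ g) (hh : D.Rep σ h) : g = h := by
  obtain ⟨h1, h2, h3, h4⟩ := hg
  obtain ⟨h1', h2', h3', h4'⟩ := hh
  have ha : g.1.a = h.1.a := by
    funext i
    have h5 := (h1 i).symm.trans (h1' i)
    exact sgn_inj (mul_right_cancel₀ (D.r_ne i) h5)
  have hb : g.1.b = h.1.b := by
    apply b_ext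
    intro i
    have h5 := (h2 i).symm.trans (h2' i)
    have h6 := sgn_inj (mul_right_cancel₀ (D.s_ne i) h5)
    rw [ha] at h6
    exact add_left_cancel h6
  have he : g.1.e = h.1.e := by
    have h5 := h3.symm.trans h3'
    rw [ha] at h5
    have h6 : ∏ i, D.u i (h.1.a i) ≠ 0 := Finset.prod_ne_zero_iff.2 fun i _ => D.u_ne i _
    exact sgn_inj (mul_right_cancel₀ D.d_ne (mul_right_cancel₀ h6 h5))
  have hc : g.2 = h.2 := by
    apply Multiplicative.toAdd.injective
    exact P_inj D.ht (h4.symm.trans h4')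
  exact Prod.ext (EG.ext he ha hb) hc

theorem u_mul (σ : L ≃ₐ[ℚ] L) (i : Fin k) (x y b : ZMod 2) (h1 : σ (D.r i) = sgn x * D.r i)
    (h2 : σ (D.s i) = sgn (x + b) * D.s i) :
    D.u i x * σ (D.u i y) = sgn (b * y) * D.u i (x + y) := by
  have h11 : (1 : ZMod 2) + 1 = 0 := by decide
  rcases zmod2_cases y with rfl | rfl
  · rw [mul_zero, add_zero, u_zero, sgn_zero, map_one, mul_one, one_mul]
  · rw [mul_one, u_one, map_div₀, map_mul, map_add, map_natCast, h1, h2]
    rcases zmod2_cases x with rfl | rfl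
    · rw [u_zero, zero_add, zero_add, u_one, sgn_zero]
      ring
    · rw [u_one, h11, u_zero, sgn_add, sgn_one]
      have h3 := D.add_ne i
      have h4 := D.sub_ne i
      have h5 := D.mul_eq i
      have h6 := D.hr i
      have h7 := D.hs i
      have h8 : (D.A i : L) + -1 * D.r i ≠ 0 := by
        intro h
        apply h4
        linear_combination h
      rw [div_mul_div_comm, div_eq_iff (mul_ne_zero h3 h8)]
      have h9 : ((D.A i : L) + D.r i) * (D.A i + -1 * D.r i) = D.r i ^ 2 * D.s i ^ 2 := by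
        rw [h6, h7]
        linear_combination h5
      rw [h9]
      ring

theorem rep_mul {σ τ : L ≃ₐ[ℚ] L} {g h : EG (Fin k → ZMod 2) × Multiplicative (ZMod 3)}
    (hg : D.Rep σ g) (hh : D.Rep τ h) : D.Rep (σ * τ) (g * h) := by
  obtain ⟨h1, h2, h3, h4⟩ := hg
  obtain ⟨h1', h2', h3', h4'⟩ := hh
  refine ⟨fun i => ?_, fun i => ?_, ?_, ?_⟩
  · rw [AlgEquiv.mul_apply, h1', map_mul, map_sgn, h1, Prod.fst_mul, EG.mul_a, Pi.add_apply,
      sgn_add]
    ring
  · rw [AlgEquiv.mul_apply, h2', map_mul, map_sgn, h2, Prod.fst_mul, EG.mul_a, EG.mul_b,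
      Pi.add_apply, AddMonoidHom.add_apply, sgn_add, sgn_add, sgn_add, sgn_add, sgn_add]
    ring
  · rw [AlgEquiv.mul_apply, h3', map_mul, map_mul, map_sgn, h3, map_prod, Prod.fst_mul, EG.mul_e,
      EG.mul_a, sgn_add, sgn_add]
    have h5 : (∏ i, D.u i (g.1.a i)) * ∏ i, σ (D.u i (h.1.a i)) =
        sgn (g.1.b h.1.a) * ∏ i, D.u i (g.1.a i + h.1.a i) := by
      rw [bh_eq g.1.b, sgn_sum, ← Finset.prod_mul_distrib, ← Finset.prod_mul_distrib]
      refine Finset.prod_congr rfl fun i _ => ?_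
      exact D.u_mul σ i _ _ _ (h1 i) (h2 i)
    have h6 : ∏ i, D.u i ((g.1.a + h.1.a) i) = ∏ i, D.u i (g.1.a i + h.1.a i) := rfl
    rw [h6]
    linear_combination (sgn g.1.e * sgn h.1.e * D.d) * h5
  · rw [AlgEquiv.mul_apply, h4', map_P, h4, P_P D.ht]
    rw [Prod.snd_mul, toAdd_mul, add_comm]

theorem rep_one : D.Rep 1 1 := by
  refine ⟨fun i => ?_, fun i => ?_, ?_, ?_⟩
  · rw [AlgEquiv.one_apply, Prod.fst_one, EG.one_a, Pi.zero_apply, sgn_zero, one_mul]
  · rw [AlgEquiv.one_apply, Prod.fst_one, EG.one_a, EG.one_b, Pi.zero_apply,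
      AddMonoidHom.zero_apply, add_zero, sgn_zero, one_mul]
  · rw [AlgEquiv.one_apply, Prod.fst_one, EG.one_a, EG.one_e, sgn_zero, one_mul]
    simp [u_zero]
  · rw [AlgEquiv.one_apply, Prod.snd_one, toAdd_one, P_zero]

end Dat

end Pool.Agent.Q237.ZC
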