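import Mathlib
import Pool.Agent.Q237.ZC.Rep

set_option autoImplicit false

/-!
Job ZC-SF, part 3: the Galois group is the extraspecial group times the group of order three.
-/

namespace Pool.Agent.Q237.ZC

open Finset Pool.Agent.Q271.ZC

theorem no_root (q : ℚ) : q ^ 3 - 3 * q + 1 ≠ 0 := by
  intro h
  have hm : (q.den : ℚ) ≠ 0 := by exact_mod_cast q.den_ne_zero
  have h1 : (q.num : ℚ) ^ 3 - 3 * q.num * (q.den : ℚ) ^ 2 + (q.den : ℚ) ^ 3 = 0 := by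
    have h2 : (q.num : ℚ) = q * q.den := by
      rw [Rat.mul_den_eq_num]
    rw [h2]
    linear_combination (q.den : ℚ) ^ 3 * h
  have h2 : (q.num : ℤ) ^ 3 - 3 * q.num * (q.den : ℤ) ^ 2 + (q.den : ℤ) ^ 3 = 0 := by
    exact_mod_cast h1
  have h3 : ((q.num : ℤ) : ZMod 2) ^ 3 - 3 * ((q.num : ℤ) : ZMod 2) * ((q.den : ℕ) : ZMod 2) ^ 2 +
      ((q.den : ℕ) : ZMod 2) ^ 3 = 0 := by
    have h4 := congrArg (Int.cast : ℤ → ZMod 2) h2
    push_cast at h4
    exact h4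
  have h4 : ∀ a b : ZMod 2, a ^ 3 - 3 * a * b ^ 2 + b ^ 3 = 0 → a = 0 ∧ b = 0 := by decide
  obtain ⟨h5, h6⟩ := h4 _ _ h3
  have h7 : (2 : ℤ) ∣ q.num := (ZMod.intCast_zmod_eq_zero_iff_dvd _ 2).1 h5
  have h8 : 2 ∣ q.den := (ZMod.natCast_eq_zero_iff _ 2).1 h6
  have h9 : 2 ∣ q.num.natAbs := Int.natCast_dvd.1 h7
  have h10 := Nat.dvd_gcd h9 h8
  rw [q.reduced] at h10
  omega

namespace Dat

section

variable {k : ℕ} {L : Type} [Field L] [CharZero L] (D : Dat k L)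

/-- the homomorphism to the extraspecial group -/
noncomputable def theta : (L ≃ₐ[ℚ] L) →* EG (Fin k → ZMod 2) × Multiplicative (ZMod 3) where
  toFun σ := (D.rep_exists σ).choose
  map_one' := D.rep_unique (D.rep_exists 1).choose_spec D.rep_one
  map_mul' σ τ := D.rep_unique (D.rep_exists (σ * τ)).choose_spec
    (D.rep_mul (D.rep_exists σ).choose_spec (D.rep_exists τ).choose_spec)

theorem theta_rep (σ : L ≃ₐ[ℚ] L) : D.Rep σ (D.theta σ) := (D.rep_exists σ).choose_spec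

theorem theta_eq {σ : L ≃ₐ[ℚ] L} {g : EG (Fin k → ZMod 2) × Multiplicative (ZMod 3)}
    (h : D.Rep σ g) : D.theta σ = g := D.rep_unique (D.theta_rep σ) h

theorem theta_inj (gen : ∀ σ τ : L ≃ₐ[ℚ] L, (∀ i, σ (D.r i) = τ (D.r i)) →
    (∀ i, σ (D.s i) = τ (D.s i)) → σ D.d = τ D.d → σ D.t = τ D.t → σ = τ) :
    Function.Injective D.theta := by
  intro σ τ h
  obtain ⟨h1, h2, h3, h4⟩ := D.theta_rep σ
  obtain ⟨h1', h2', h3', h4'⟩ := D.theta_rep τ
  rw [h] at h1 h2 h3 h4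
  exact gen σ τ (fun i => (h1 i).trans (h1' i).symm) (fun i => (h2 i).trans (h2' i).symm)
    (h3.trans h3'.symm) (h4.trans h4'.symm)

/-- the pairs of sign vectors of automorphisms -/
def signs : Submodule (ZMod 2) ((Fin k → ZMod 2) × (Fin k → ZMod 2)) where
  carrier := {p | ∃ σ : L ≃ₐ[ℚ] L, (∀ i, σ (D.r i) = sgn (p.1 i) * D.r i) ∧
    ∀ i, σ (D.s i) = sgn (p.2 i) * D.s i}
  zero_mem' := by
    refine ⟨1, fun i => ?_, fun i => ?_⟩
    · rw [AlgEquiv.one_apply, Prod.fst_zero, Pi.zero_apply, sgn_zero, one_mul]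
    · rw [AlgEquiv.one_apply, Prod.snd_zero, Pi.zero_apply, sgn_zero, one_mul]
  add_mem' := by
    rintro p q ⟨σ, h1, h2⟩ ⟨τ, h1', h2'⟩
    refine ⟨σ * τ, fun i => ?_, fun i => ?_⟩
    · rw [AlgEquiv.mul_apply, h1', map_mul, map_sgn, h1, Prod.fst_add, Pi.add_apply, sgn_add]
      ring
    · rw [AlgEquiv.mul_apply, h2', map_mul, map_sgn, h2, Prod.snd_add, Pi.add_apply, sgn_add]
      ring
  smul_mem' := by
    intro c p hp
    rcases zmod2_cases c with rfl | rfl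
    · rw [zero_smul]
      refine ⟨1, fun i => ?_, fun i => ?_⟩
      · rw [AlgEquiv.one_apply, Prod.fst_zero, Pi.zero_apply, sgn_zero, one_mul]
      · rw [AlgEquiv.one_apply, Prod.snd_zero, Pi.zero_apply, sgn_zero, one_mul]
    · rw [one_smul]; exact hp

theorem functional_eq (f : ((Fin k → ZMod 2) × (Fin k → ZMod 2)) →ₗ[ZMod 2] ZMod 2)
    (x y : Fin k → ZMod 2) :
    f (x, y) = ∑ i ∈ univ.filter (fun i => f (Pi.single i 1, 0) ≠ 0), x i +
      ∑ i ∈ univ.filter (fun i => f (0, Pi.single i 1) ≠ 0), y i := by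
  have h1 : f (x, y) = f (x, 0) + f (0, y) := by
    rw [← map_add]
    congr 1
    simp
  have h2 : f (x, 0) = ∑ i, f (Pi.single i 1, 0) * x i :=
    bh_eq ((f.comp (LinearMap.inl (ZMod 2) (Fin k → ZMod 2) (Fin k → ZMod 2))).toAddMonoidHom) x
  have h3 : f (0, y) = ∑ i, f (0, Pi.single i 1) * y i :=
    bh_eq ((f.comp (LinearMap.inr (ZMod 2) (Fin k → ZMod 2) (Fin k → ZMod 2))).toAddMonoidHom) y
  rw [h1, h2, h3, Finset.sum_filter, Finset.sum_filter]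
  congr 1
  · refine Finset.sum_congr rfl fun i _ => ?_
    rcases zmod2_cases (f (Pi.single i 1, 0)) with h | h
    · rw [h, zero_mul, if_neg (by simp)]
    · rw [h, one_mul, if_pos one_ne_zero]
  · refine Finset.sum_congr rfl fun i _ => ?_
    rcases zmod2_cases (f (0, Pi.single i 1)) with h | h
    · rw [h, zero_mul, if_neg (by simp)]
    · rw [h, one_mul, if_pos one_ne_zero]

theorem pow_four (g : EG (Fin k → ZMod 2)) : g ^ 4 = 1 := by
  have h1 : ∀ x : ZMod 2, x + x = 0 := CharTwo.add_self_eq_zero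
  have h2 : g * g = ⟨g.b g.a, 0, 0⟩ := by
    apply EG.ext
    · rw [EG.mul_e, h1, zero_add]
    · rw [EG.mul_a]
      funext i
      exact h1 _
    · rw [EG.mul_b]
      apply AddMonoidHom.ext
      intro x
      exact h1 _
  have h3 : g ^ 4 = (g * g) * (g * g) := by rw [← pow_two, ← pow_two, ← pow_mul]
  rw [h3, h2]
  apply EG.ext
  · rw [EG.mul_e, EG.one_e]
    show g.b g.a + g.b g.a + (0 : (Fin k → ZMod 2) →+ ZMod 2) 0 = 0
    rw [AddMonoidHom.zero_apply, h1, zero_add]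
  · rw [EG.mul_a, EG.one_a]
    exact add_zero _
  · rw [EG.mul_b, EG.one_b]
    exact add_zero _

end

section

variable {k : ℕ} {L : Type} [Field L] [NumberField L] [IsGalois ℚ L] (D : Dat k L)

theorem mem_bot {x : L} (h : ∀ σ : L ≃ₐ[ℚ] L, σ x = x) : ∃ q : ℚ, (algebraMap ℚ L) q = x := by
  have h1 : x ∈ (⊥ : IntermediateField ℚ L) := (IsGalois.mem_bot_iff_fixed x).2 h
  exact IntermediateField.mem_bot.1 h1

theorem exists_t : ∃ σ : L ≃ₐ[ℚ] L, σ D.t ≠ D.t := by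
  by_contra h
  push Not at h
  obtain ⟨q, hq⟩ := mem_bot h
  apply no_root q
  have h1 := D.ht
  rw [← hq] at h1
  apply (algebraMap ℚ L).injective
  rw [map_add, map_sub, map_mul, map_pow, map_one, map_zero, map_ofNat]
  exact h1

theorem signs_top (ind : ∀ X Y : Finset (Fin k), X.Nonempty ∨ Y.Nonempty →
    ¬ IsSquare ((∏ i ∈ X, D.A i) * ∏ i ∈ Y, (D.A i - 1))) : D.signs = ⊤ := by
  by_contra hne
  obtain ⟨f, hf0, hf⟩ := Submodule.exists_le_ker_of_lt_top D.signs (lt_top_iff_ne_top.2 hne)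
  set X : Finset (Fin k) := univ.filter (fun i => f (Pi.single i 1, 0) ≠ 0) with hX
  set Y : Finset (Fin k) := univ.filter (fun i => f (0, Pi.single i 1) ≠ 0) with hY
  have hfe : ∀ x y, f (x, y) = ∑ i ∈ X, x i + ∑ i ∈ Y, y i := fun x y => functional_eq f x y
  have hXY : X.Nonempty ∨ Y.Nonempty := by
    by_contra h
    push Not at h
    apply hf0
    apply LinearMap.ext
    rintro ⟨x, y⟩
    rw [hfe, h.1, h.2]
    simp
  apply ind X Y hXY
  have hfix : ∀ σ : L ≃ₐ[ℚ] L, σ ((∏ i ∈ X, D.r i) * ∏ i ∈ Y, D.s i) =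
      (∏ i ∈ X, D.r i) * ∏ i ∈ Y, D.s i := by
    intro σ
    obtain ⟨h1, h2, -, -⟩ := D.theta_rep σ
    set α : Fin k → ZMod 2 := (D.theta σ).1.a
    set β : Fin k → ZMod 2 := fun i => (D.theta σ).1.a i + (D.theta σ).1.b (Pi.single i 1) with hβ
    have h3 : (α, β) ∈ D.signs := ⟨σ, h1, h2⟩
    have h4 : f (α, β) = 0 := hf h3
    rw [hfe] at h4
    have h5 : (sgn (∑ i ∈ X, α i + ∑ i ∈ Y, β i) : L) = 1 := by rw [h4, sgn_zero]
    rw [sgn_add, sgn_sum, sgn_sum] at h5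
    have h6 : σ (∏ i ∈ X, D.r i) = (∏ i ∈ X, sgn (α i)) * ∏ i ∈ X, D.r i := by
      rw [map_prod, ← Finset.prod_mul_distrib]
      exact Finset.prod_congr rfl fun i _ => h1 i
    have h7 : σ (∏ i ∈ Y, D.s i) = (∏ i ∈ Y, sgn (β i)) * ∏ i ∈ Y, D.s i := by
      rw [map_prod, ← Finset.prod_mul_distrib]
      exact Finset.prod_congr rfl fun i _ => h2 i
    rw [map_mul, h6, h7]
    linear_combination ((∏ i ∈ X, D.r i) * ∏ i ∈ Y, D.s i) * h5
  obtain ⟨q, hq⟩ := mem_bot hfix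
  have h8 : q ^ 2 = (((∏ i ∈ X, D.A i) * ∏ i ∈ Y, (D.A i - 1) : ℕ) : ℚ) := by
    apply (algebraMap ℚ L).injective
    rw [map_pow, hq, map_natCast, mul_pow, ← Finset.prod_pow, ← Finset.prod_pow, Nat.cast_mul,
      Nat.cast_prod, Nat.cast_prod]
    congr 1
    · exact Finset.prod_congr rfl fun i _ => D.hr i
    · refine Finset.prod_congr rfl fun i _ => ?_
      have := D.hA i
      rw [D.hs i, Nat.cast_sub (by omega), Nat.cast_one]
  have h9 : IsSquare ((((∏ i ∈ X, D.A i) * ∏ i ∈ Y, (D.A i - 1) : ℕ)) : ℚ) := ⟨q, by rw [← h8, sq]⟩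
  exact Rat.isSquare_natCast_iff.1 h9

theorem surj (ind : ∀ X Y : Finset (Fin k), X.Nonempty ∨ Y.Nonempty →
    ¬ IsSquare ((∏ i ∈ X, D.A i) * ∏ i ∈ Y, (D.A i - 1)))
    (c0 : L ≃ₐ[ℚ] L) (hc : D.theta c0 = (⟨1, 0, 0⟩, 1)) : Function.Surjective D.theta := by
  have hcyc : ∀ c : ZMod 3, ∃ τ, D.theta τ = (1, Multiplicative.ofAdd c) := by
    obtain ⟨τ, hτ⟩ := D.exists_t
    obtain ⟨-, -, -, h4⟩ := D.theta_rep τ
    set c₁ : ZMod 3 := Multiplicative.toAdd (D.theta τ).2 with hc₁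
    have h5 : c₁ ≠ 0 := by
      intro h
      rw [h, P_zero] at h4
      exact hτ h4
    have h6 : D.theta (τ ^ 4) = (1, Multiplicative.ofAdd c₁) := by
      rw [map_pow]
      apply Prod.ext
      · rw [Prod.pow_fst, pow_four]
      · rw [Prod.pow_snd]
        apply Multiplicative.toAdd.injective
        rw [toAdd_pow, toAdd_ofAdd, ← hc₁]
        have : ∀ c : ZMod 3, 4 • c = c := by decide
        exact this c₁
    intro c
    have h7 : ∀ a b : ZMod 3, a ≠ 0 → ∃ n : Fin 3, (n : ℕ) • a = b := by decide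
    obtain ⟨n, hn⟩ := h7 c₁ c h5
    refine ⟨(τ ^ 4) ^ (n : ℕ), ?_⟩
    rw [map_pow, h6]
    apply Prod.ext
    · rw [Prod.pow_fst, one_pow]
    · rw [Prod.pow_snd, ← ofAdd_nsmul, hn]
  rintro ⟨g, c⟩
  have h1 : (g.a, fun i => g.a i + g.b (Pi.single i 1)) ∈ D.signs := by
    rw [D.signs_top ind]
    exact Submodule.mem_top
  obtain ⟨σ, h2, h3⟩ := h1
  obtain ⟨h4, h5, -, -⟩ := D.theta_rep σ
  have ha : (D.theta σ).1.a = g.a := by
    funext i
    exact sgn_inj (mul_right_cancel₀ (D.r_ne i) ((h4 i).symm.trans (h2 i)))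
  have hb : (D.theta σ).1.b = g.b := by
    apply b_ext
    intro i
    have h6 := sgn_inj (mul_right_cancel₀ (D.s_ne i) ((h5 i).symm.trans (h3 i)))
    rw [ha] at h6
    exact add_left_cancel h6
  have hx : ∀ x : ZMod 2, ∃ τ, D.theta τ = (⟨x, 0, 0⟩, 1) := by
    intro x
    rcases zmod2_cases x with rfl | rfl
    · exact ⟨1, map_one _⟩
    · exact ⟨c0, hc⟩
  obtain ⟨τ, hτ⟩ := hx (g.e - (D.theta σ).1.e)
  obtain ⟨ρ, hρ⟩ := hcyc (Multiplicative.toAdd c - Multiplicative.toAdd (D.theta σ).2)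
  refine ⟨σ * τ * ρ, ?_⟩
  rw [map_mul, map_mul, hτ, hρ]
  apply Prod.ext
  · rw [Prod.fst_mul, Prod.fst_mul, mul_one]
    apply EG.ext
    · rw [EG.mul_e]
      show (D.theta σ).1.e + (g.e - (D.theta σ).1.e) + (D.theta σ).1.b 0 = g.e
      rw [map_zero]
      ring
    · rw [EG.mul_a, ha]
      exact add_zero _
    · rw [EG.mul_b, hb]
      exact add_zero _
  · rw [Prod.snd_mul, Prod.snd_mul, mul_one]
    apply Multiplicative.toAdd.injective
    rw [toAdd_mul, toAdd_ofAdd]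
    exact add_sub_cancel _ _

theorem main (ind : ∀ X Y : Finset (Fin k), X.Nonempty ∨ Y.Nonempty →
    ¬ IsSquare ((∏ i ∈ X, D.A i) * ∏ i ∈ Y, (D.A i - 1)))
    (gen : ∀ σ τ : L ≃ₐ[ℚ] L, (∀ i, σ (D.r i) = τ (D.r i)) →
      (∀ i, σ (D.s i) = τ (D.s i)) → σ D.d = τ D.d → σ D.t = τ D.t → σ = τ)
    (c0 : L ≃ₐ[ℚ] L) (hc1 : ∀ i, c0 (D.r i) = D.r i) (hc2 : ∀ i, c0 (D.s i) = D.s i)
    (hc3 : c0 D.d = - D.d) (hc4 : c0 D.t = D.t) (φ0 : L →+* ℂ)
    (hφ : ∀ x, starRingEnd ℂ (φ0 x) = φ0 (c0 x)) :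
    ∃ e : (L ≃ₐ[ℚ] L) ≃* EG (Fin k → ZMod 2) × Multiplicative (ZMod 3),
      ∀ φ : L →+* ℂ, NumberField.ComplexEmbedding.IsConj φ (e.symm (⟨1, 0, 0⟩, 1)) := by
  have hrep : D.Rep c0 (⟨1, 0, 0⟩, 1) := by
    refine ⟨fun i => ?_, fun i => ?_, ?_, ?_⟩
    · show c0 (D.r i) = sgn 0 * D.r i
      rw [hc1, sgn_zero, one_mul]
    · show c0 (D.s i) = sgn (0 + 0) * D.s i
      rw [hc2, add_zero, sgn_zero, one_mul]
    · show c0 D.d = sgn 1 * D.d * ∏ i, D.u i 0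
      rw [hc3, sgn_one, Finset.prod_congr rfl fun i _ => D.u_zero i, Finset.prod_const_one]
      ring
    · show c0 D.t = P 0 D.t
      rw [hc4, P_zero]
  have hc := D.theta_eq hrep
  let e : (L ≃ₐ[ℚ] L) ≃* EG (Fin k → ZMod 2) × Multiplicative (ZMod 3) :=
    MulEquiv.ofBijective D.theta ⟨D.theta_inj gen, D.surj ind c0 hc⟩
  have he : ∀ σ, e σ = D.theta σ := fun σ => rfl
  refine ⟨e, fun φ => ?_⟩
  have h1 : e.symm (⟨1, 0, 0⟩, 1) = c0 := by
    rw [MulEquiv.symm_apply_eq, he, hc]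
  rw [h1]
  have hcomm : ∀ σ : L ≃ₐ[ℚ] L, c0 * σ = σ * c0 := by
    intro σ
    apply e.injective
    rw [map_mul, map_mul, he, hc]
    apply Prod.ext
    · rw [Prod.fst_mul, Prod.fst_mul]
      apply EG.ext
      · rw [EG.mul_e, EG.mul_e]
        show 1 + (e σ).1.e + (0 : (Fin k → ZMod 2) →+ ZMod 2) (e σ).1.a =
          (e σ).1.e + 1 + (e σ).1.b 0
        rw [map_zero, AddMonoidHom.zero_apply]
        ring
      · exact add_comm _ _
      · exact add_comm _ _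
    · exact mul_comm _ _
  obtain ⟨σ, hσ⟩ := NumberField.ComplexEmbedding.exists_comp_symm_eq_of_comp_eq (k := ℚ) φ0 φ
    (Subsingleton.elim _ _)
  have hφe : ∀ x, φ x = φ0 (σ.symm x) := fun x => by rw [← hσ]; rfl
  apply RingHom.ext
  intro x
  show starRingEnd ℂ (φ x) = φ (c0 x)
  rw [hφe, hφe, hφ]
  have h2 := AlgEquiv.congr_fun (hcomm σ.symm) x
  rw [AlgEquiv.mul_apply, AlgEquiv.mul_apply] at h2
  rw [h2]

end

end Dat

end Pool.Agent.Q237.ZC
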