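import Mathlib
import Pool.Agent.Q237.ZC.Group
import Pool.Agent.Q271.ZC.Stm

set_option autoImplicit false

/-!
Job ZC-SF, part 4: the field.
-/

namespace Pool.Agent.Q237.ZC

open Finset Pool.Agent.Q271.ZC

namespace Dat

section

variable {F Ω : Type} [Field F] [Field Ω] [CharZero Ω] [Algebra F Ω] {k : ℕ} (D : Dat k Ω)

/-- the generators -/
def gens : Set Ω := (Set.range D.r ∪ Set.range D.s) ∪ {D.d, D.t}

theorem gens_finite : Finite D.gens :=
  (((Set.finite_range D.r).union (Set.finite_range D.s)).union (Set.toFinite {D.d, D.t})).to_subtype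

variable (F) in
/-- the field -/
def LL : IntermediateField F Ω := IntermediateField.adjoin F D.gens

theorem r_mem (i : Fin k) : D.r i ∈ D.LL F :=
  IntermediateField.subset_adjoin _ _ (Or.inl (Or.inl ⟨i, rfl⟩))

theorem s_mem (i : Fin k) : D.s i ∈ D.LL F :=
  IntermediateField.subset_adjoin _ _ (Or.inl (Or.inr ⟨i, rfl⟩))

theorem d_mem : D.d ∈ D.LL F :=
  IntermediateField.subset_adjoin _ _ (Or.inr (Or.inl rfl))

theorem t_mem : D.t ∈ D.LL F :=
  IntermediateField.subset_adjoin _ _ (Or.inr (Or.inr rfl))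

instance charZero : CharZero (D.LL F) := (algebraMap (D.LL F) Ω).charZero

variable (F) in
/-- the data in the subfield -/
def res : Dat k (D.LL F) where
  A := D.A
  hA := D.hA
  r i := ⟨D.r i, D.r_mem i⟩
  s i := ⟨D.s i, D.s_mem i⟩
  d := ⟨D.d, D.d_mem⟩
  t := ⟨D.t, D.t_mem⟩
  hr i := by
    apply Subtype.ext
    push_cast
    exact D.hr i
  hs i := by
    apply Subtype.ext
    push_cast
    exact D.hs i
  hd := by
    apply Subtype.ext
    push_cast
    exact D.hd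
  ht := by
    apply Subtype.ext
    have h3 : algebraMap (D.LL F) Ω 3 = 3 := map_ofNat (algebraMap (D.LL F) Ω) 3
    show D.t ^ 3 - algebraMap (D.LL F) Ω 3 * D.t + 1 = 0
    rw [h3]
    exact D.ht

variable (F) in
theorem integral_nat (n : ℕ) : IsIntegral F (n : Ω) := by
  rw [← map_natCast (algebraMap F Ω) n]
  exact isIntegral_algebraMap

theorem integral_r (i : Fin k) : IsIntegral F (D.r i) :=
  IsIntegral.of_pow two_pos (by rw [D.hr]; exact integral_nat F _)

theorem integral_s (i : Fin k) : IsIntegral F (D.s i) :=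
  IsIntegral.of_pow two_pos (by
    rw [D.hs]
    exact (integral_nat F _).sub isIntegral_one)

theorem integral_d : IsIntegral F D.d :=
  IsIntegral.of_pow two_pos (by
    rw [D.hd]
    exact IsIntegral.neg (IsIntegral.prod _ fun i _ => (integral_nat F _).add (D.integral_r i)))

theorem integral_t : IsIntegral F D.t := by
  refine ⟨Polynomial.X ^ 3 - Polynomial.C 3 * Polynomial.X + Polynomial.C 1, ?_, ?_⟩
  · monicity!
  · have h := D.ht
    have h6 : algebraMap F Ω 3 = 3 := map_ofNat (algebraMap F Ω) 3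
    simpa [h6] using h

theorem finDim : FiniteDimensional F (D.LL F) := by
  have := D.gens_finite
  apply IntermediateField.finiteDimensional_adjoin
  rintro x ((⟨i, rfl⟩ | ⟨i, rfl⟩) | (rfl | rfl))
  · exact D.integral_r i
  · exact D.integral_s i
  · exact D.integral_d
  · exact D.integral_t

theorem natCast_mem' (n : ℕ) : (n : Ω) ∈ D.LL F := natCast_mem _ n

theorem sgn_mem (x : ZMod 2) : (sgn x : Ω) ∈ D.LL F := by
  rcases zmod2_cases x with rfl | rfl
  · rw [sgn_zero]; exact one_mem _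
  · rw [sgn_one]; exact neg_mem (one_mem _)

theorem u_mem (i : Fin k) (x : ZMod 2) : D.u i x ∈ D.LL F := by
  rcases zmod2_cases x with rfl | rfl
  · rw [u_zero]; exact one_mem _
  · rw [u_one]
    exact div_mem (mul_mem (D.r_mem i) (D.s_mem i)) (add_mem (D.natCast_mem' _) (D.r_mem i))

theorem P_mem (c : ZMod 3) : P c D.t ∈ D.LL F := by
  have h2 : (2 : Ω) ∈ D.LL F := by exact_mod_cast D.natCast_mem' (F := F) 2
  rcases zmod3_cases c with rfl | rfl | rfl
  · rw [P_zero]; exact D.t_mem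
  · rw [P_one]; exact sub_mem (pow_mem D.t_mem 2) h2
  · rw [P_two]; exact sub_mem (sub_mem h2 D.t_mem) (pow_mem D.t_mem 2)

theorem normal [Normal F Ω] : Normal F (D.LL F) := by
  rw [IntermediateField.normal_iff_forall_map_le]
  intro σ
  rw [LL, IntermediateField.adjoin_map, IntermediateField.adjoin_le_iff]
  have h1 : ∀ i, ∃ x : ZMod 2, σ (D.r i) = sgn x * D.r i := fun i =>
    exists_sgn (by rw [← map_pow, D.hr i, map_natCast])
  have h2 : ∀ i, ∃ x : ZMod 2, σ (D.s i) = sgn x * D.s i := fun i =>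
    exists_sgn (by rw [← map_pow, D.hs i, map_sub, map_natCast, map_one])
  choose α hα using h1
  choose β hβ using h2
  have h3 : ∃ x : ZMod 2, σ D.d = sgn x * (D.d * ∏ i, D.u i (α i)) := by
    apply exists_sgn
    rw [← map_pow, D.hd, map_neg, map_prod, mul_pow, D.hd, ← Finset.prod_pow, neg_mul,
      ← Finset.prod_mul_distrib]
    congr 1
    refine Finset.prod_congr rfl fun i _ => ?_
    rw [map_add, map_natCast, hα i, mul_comm (_ + _) (_ ^ 2), D.u_sq i]
  obtain ⟨e, he⟩ := h3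
  have h4 : ∃ c : ZMod 3, σ D.t = P c D.t := by
    apply exists_P D.ht
    have h5 := congrArg σ D.ht
    have h6 : σ 3 = 3 := map_ofNat σ 3
    rw [map_add, map_sub, map_mul, map_pow, map_one, map_zero, h6] at h5
    exact h5
  obtain ⟨c, hc⟩ := h4
  rintro _ ⟨x, hx, rfl⟩
  rcases hx with (⟨i, rfl⟩ | ⟨i, rfl⟩) | (rfl | rfl)
  · show σ (D.r i) ∈ D.LL F
    rw [hα]
    exact mul_mem (D.sgn_mem _) (D.r_mem i)
  · show σ (D.s i) ∈ D.LL F
    rw [hβ]
    exact mul_mem (D.sgn_mem _) (D.s_mem i)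
  · show σ D.d ∈ D.LL F
    rw [he]
    exact mul_mem (D.sgn_mem _) (mul_mem D.d_mem (prod_mem fun i _ => D.u_mem i _))
  · show σ D.t ∈ D.LL F
    rw [hc]
    exact D.P_mem c

theorem gen (σ τ : D.LL F ≃ₐ[F] D.LL F) (h1 : ∀ i, σ ((D.res F).r i) = τ ((D.res F).r i))
    (h2 : ∀ i, σ ((D.res F).s i) = τ ((D.res F).s i)) (h3 : σ (D.res F).d = τ (D.res F).d)
    (h4 : σ (D.res F).t = τ (D.res F).t) : σ = τ := by
  have h : (σ : D.LL F →ₐ[F] D.LL F) = (τ : D.LL F →ₐ[F] D.LL F) := by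
    apply IntermediateField.adjoin_algHom_ext F
    rintro x ((⟨i, rfl⟩ | ⟨i, rfl⟩) | (rfl | rfl))
    · exact h1 i
    · exact h2 i
    · exact h3
    · exact h4
  apply AlgEquiv.ext
  intro x
  exact AlgHom.congr_fun h x

end

section exist

variable (Ω : Type) [Field Ω] [CharZero Ω] [IsAlgClosed Ω]

theorem exists_dat (k : ℕ) : ∃ D : Dat k Ω, ∀ i, D.A i = As i := by
  have h1 : ∀ i : Fin k, ∃ r : Ω, r ^ 2 = (As i : Ω) := fun i =>
    IsAlgClosed.exists_pow_nat_eq _ two_pos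
  have h2 : ∀ i : Fin k, ∃ s : Ω, s ^ 2 = (As i : Ω) - 1 := fun i =>
    IsAlgClosed.exists_pow_nat_eq _ two_pos
  choose r hr using h1
  choose s hs using h2
  obtain ⟨d, hd⟩ : ∃ d : Ω, d ^ 2 = - ∏ i : Fin k, ((As i : Ω) + r i) :=
    IsAlgClosed.exists_pow_nat_eq _ two_pos
  obtain ⟨t, ht⟩ : ∃ t : Ω, t ^ 3 - 3 * t + 1 = 0 := by
    obtain ⟨t, ht⟩ := IsAlgClosed.exists_root
      (Polynomial.X ^ 3 - Polynomial.C 3 * Polynomial.X + Polynomial.C 1 : Polynomial Ω) (by
        have : (Polynomial.X ^ 3 - Polynomial.C 3 * Polynomial.X + Polynomial.C 1 :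
            Polynomial Ω).degree = 3 := by compute_degree!
        rw [this]
        norm_num)
    refine ⟨t, ?_⟩
    simpa [Polynomial.IsRoot] using ht
  exact ⟨⟨fun i => As i, fun i => two_le_As i, r, s, d, t, hr, hs, hd, ht⟩, fun i => rfl⟩

end exist

section complex

/-- real square roots -/
theorem conj_of_sq {z : ℂ} {a : ℝ} (ha : 0 ≤ a) (h : z ^ 2 = (a : ℂ)) : starRingEnd ℂ z = z := by
  have h1 : z ^ 2 = ((Real.sqrt a : ℝ) : ℂ) ^ 2 := by
    rw [h, ← Complex.ofReal_pow, Real.sq_sqrt ha]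
  rcases sq_eq_sq_iff_eq_or_eq_neg.1 h1 with h2 | h2
  · rw [h2, Complex.conj_ofReal]
  · rw [h2, map_neg, Complex.conj_ofReal]

theorem conj_of_sq_neg {z : ℂ} {a : ℝ} (ha : 0 ≤ a) (h : z ^ 2 = -(a : ℂ)) :
    starRingEnd ℂ z = -z := by
  have h1 : z ^ 2 = (Complex.I * ((Real.sqrt a : ℝ) : ℂ)) ^ 2 := by
    rw [h, mul_pow, Complex.I_sq, ← Complex.ofReal_pow, Real.sq_sqrt ha]
    ring
  rcases sq_eq_sq_iff_eq_or_eq_neg.1 h1 with h2 | h2
  · rw [h2, map_mul, Complex.conj_I, Complex.conj_ofReal]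
    ring
  · rw [h2, map_neg, map_mul, Complex.conj_I, Complex.conj_ofReal]
    ring

theorem exists_real_root : ∃ x : ℝ, x ^ 3 - 3 * x + 1 = 0 := by
  have hc : Continuous fun x : ℝ => x ^ 3 - 3 * x + 1 := by fun_prop
  have h := intermediate_value_Icc (a := (-2 : ℝ)) (b := 0) (by norm_num) hc.continuousOn
  have h0 : (0 : ℝ) ∈ Set.Icc ((-2 : ℝ) ^ 3 - 3 * (-2) + 1) ((0 : ℝ) ^ 3 - 3 * 0 + 1) := by
    constructor <;> norm_num
  obtain ⟨x, -, hx⟩ := h h0
  exact ⟨x, hx⟩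

theorem conj_root {z : ℂ} (h : z ^ 3 - 3 * z + 1 = 0) : starRingEnd ℂ z = z := by
  obtain ⟨x, hx⟩ := exists_real_root
  have h1 : (x : ℂ) ^ 3 - 3 * (x : ℂ) + 1 = 0 := by exact_mod_cast congrArg (Complex.ofReal) hx
  obtain ⟨c, rfl⟩ := exists_P h1 h
  rcases zmod3_cases c with rfl | rfl | rfl
  · rw [P_zero, Complex.conj_ofReal]
  · rw [P_one, map_sub, map_pow, Complex.conj_ofReal, map_ofNat]
  · rw [P_two, map_sub, map_sub, map_pow, Complex.conj_ofReal, map_ofNat]

/-- the complex conjugation of a normal extension -/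
theorem exists_conj (L : Type) [Field L] [Algebra ℚ L] [Normal ℚ L] (φ0 : L →ₐ[ℚ] ℂ) :
    ∃ c0 : L ≃ₐ[ℚ] L, ∀ x, starRingEnd ℂ (φ0 x) = φ0 (c0 x) := by
  letI := φ0.toRingHom.toAlgebra
  haveI : IsScalarTower ℚ L ℂ := IsScalarTower.of_algebraMap_eq fun q => (φ0.commutes q).symm
  refine ⟨AlgEquiv.restrictNormal (Complex.conjAe.restrictScalars ℚ) L, fun x => ?_⟩
  exact (AlgEquiv.restrictNormal_commutes (Complex.conjAe.restrictScalars ℚ) L x).symm

end complex

theorem wrap (k : ℕ) (L : Type) [Field L] [CharZero L] (alg : Algebra ℚ L)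
    (hfd : FiniteDimensional ℚ L) (hn : Normal ℚ L) (D : Dat k L)
    (ind : ∀ X Y : Finset (Fin k), X.Nonempty ∨ Y.Nonempty →
      ¬ IsSquare ((∏ i ∈ X, D.A i) * ∏ i ∈ Y, (D.A i - 1)))
    (gen : ∀ σ τ : L ≃ₐ[ℚ] L, (∀ i, σ (D.r i) = τ (D.r i)) →
      (∀ i, σ (D.s i) = τ (D.s i)) → σ D.d = τ D.d → σ D.t = τ D.t → σ = τ) :
    ∃ (L : Type) (_ : Field L) (_ : NumberField L) (_ : IsGalois ℚ L)
      (e : (L ≃ₐ[ℚ] L) ≃* EG (Fin k → ZMod 2) × Multiplicative (ZMod 3)),
      ∀ φ : L →+* ℂ, NumberField.ComplexEmbedding.IsConj φ (e.symm (⟨1, 0, 0⟩, 1)) := by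
  have halg : alg = DivisionRing.toRatAlgebra := Subsingleton.elim _ _
  subst halg
  have hnf : NumberField L := @NumberField.mk L _ inferInstance hfd
  have hG : IsGalois ℚ L := ⟨⟩
  have hint : Algebra.IsAlgebraic ℚ L := inferInstance
  let φ0 : L →ₐ[ℚ] ℂ := IsAlgClosed.lift
  obtain ⟨c0, hc0⟩ := exists_conj L φ0
  have hinj : Function.Injective φ0 := φ0.injective
  have hrr : ∀ i, φ0 (D.r i) ^ 2 = ((D.A i : ℝ) : ℂ) := fun i => by
    rw [← map_pow, D.hr, map_natCast, Complex.ofReal_natCast]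
  have hcr : ∀ i, starRingEnd ℂ (φ0 (D.r i)) = φ0 (D.r i) := fun i =>
    conj_of_sq (Nat.cast_nonneg _) (hrr i)
  have hA1 : ∀ i, (0 : ℝ) ≤ (D.A i : ℝ) - 1 := fun i => by
    have := D.hA i
    have h2 : (2 : ℝ) ≤ (D.A i : ℝ) := by exact_mod_cast this
    linarith
  have hcs : ∀ i, starRingEnd ℂ (φ0 (D.s i)) = φ0 (D.s i) := fun i => by
    apply conj_of_sq (hA1 i)
    rw [← map_pow, D.hs, map_sub, map_natCast, map_one, Complex.ofReal_sub, Complex.ofReal_natCast,
      Complex.ofReal_one]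
  have hct : starRingEnd ℂ (φ0 D.t) = φ0 D.t := by
    apply conj_root
    have h5 := congrArg φ0 D.ht
    have h6 : φ0 3 = 3 := map_ofNat φ0 3
    rw [map_add, map_sub, map_mul, map_pow, map_one, map_zero, h6] at h5
    exact h5
  have hre : ∀ i, ∃ x : ℝ, φ0 (D.r i) = (x : ℂ) := fun i => by
    obtain ⟨x, hx⟩ := Complex.conj_eq_iff_real.1 (hcr i)
    exact ⟨x, hx⟩
  choose x hx using hre
  have hpos : ∀ i, (0 : ℝ) ≤ (D.A i : ℝ) + x i := fun i => by
    have h1 := hrr i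
    rw [hx i] at h1
    have h2 : x i ^ 2 = (D.A i : ℝ) := by exact_mod_cast h1
    have h3 := hA1 i
    nlinarith [abs_nonneg (x i), sq_abs (x i), neg_abs_le (x i), sq_nonneg (x i + 1)]
  have hcd : starRingEnd ℂ (φ0 D.d) = - φ0 D.d := by
    apply conj_of_sq_neg (a := ∏ i, ((D.A i : ℝ) + x i)) (Finset.prod_nonneg fun i _ => hpos i)
    rw [← map_pow, D.hd, map_neg, map_prod, Complex.ofReal_prod]
    congr 1
    refine Finset.prod_congr rfl fun i _ => ?_
    rw [map_add, map_natCast, hx i, Complex.ofReal_add, Complex.ofReal_natCast]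
  obtain ⟨e, he⟩ := D.main ind gen c0 (fun i => hinj (by rw [← hc0, hcr]))
    (fun i => hinj (by rw [← hc0, hcs])) (hinj (by rw [← hc0, hcd, map_neg]))
    (hinj (by rw [← hc0, hct])) φ0.toRingHom hc0
  exact ⟨L, inferInstance, hnf, hG, e, he⟩

end Dat

theorem aux (F : Type) [Field F] [CharZero F] (k : ℕ) : ∃ (L : Type) (_ : Field L) (_ : CharZero L)
    (_ : Algebra F L) (D : Dat k L), FiniteDimensional F L ∧ Normal F L ∧ (∀ i, D.A i = As i) ∧
      ∀ σ τ : L ≃ₐ[F] L, (∀ i, σ (D.r i) = τ (D.r i)) →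
      (∀ i, σ (D.s i) = τ (D.s i)) → σ D.d = τ D.d → σ D.t = τ D.t → σ = τ := by
  have hc : CharZero (AlgebraicClosure F) :=
    charZero_of_injective_algebraMap (algebraMap F (AlgebraicClosure F)).injective
  obtain ⟨D, hD⟩ := Dat.exists_dat (AlgebraicClosure F) k
  exact ⟨D.LL F, inferInstance, inferInstance, inferInstance, D.res F, D.finDim, D.normal, hD, D.gen⟩

/-- **ZC-SF** -/
theorem field : Pool.Agent.Q271.ZC.S_field := by
  intro k
  obtain ⟨L, _, _, alg, D, hfd, hn, hA, gen⟩ := aux ℚ k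
  refine Dat.wrap k L alg hfd hn D ?_ gen
  intro X Y hXY
  have h1 := indep (X.map Fin.valEmbedding) (Y.map Fin.valEmbedding) (by
    rcases hXY with h | h
    · left; exact h.map
    · right; exact h.map)
  rw [Finset.prod_map, Finset.prod_map] at h1
  simp only [hA]
  exact h1

end Pool.Agent.Q237.ZC
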